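import Pool.Agent.Helper48.KV.GoalsJ
import Pool.Agent.Helper26.KV.HInfAlg

/-!
# Project KV (MP_66be51_an), packet 5658: RIGHT, the weight on the right side
-/

open MeasureTheory Set Filter Topology

noncomputable section

namespace Pool.Agent.Helper7.KV

open Pool.Agent.Helper33.KV Pool.Agent.Helper41.KV Pool.Agent.Helper48.KV

/-- A smooth version of `(x - 1/2)^+`. -/
def Fr (x : ℝ) : ℝ := (x - 1 / 2) * Real.smoothTransition (4 * (x - 1 / 2))

theorem Fr_smooth : ContDiff ℝ (⊤ : ℕ∞) Fr := by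
  unfold Fr
  refine ContDiff.mul (by fun_prop) ?_
  exact Real.smoothTransition.contDiff.comp (by fun_prop)

theorem Fr_zero {x : ℝ} (h : x ≤ 1 / 2) : Fr x = 0 := by
  unfold Fr
  rw [Real.smoothTransition.zero_of_nonpos (by linarith), mul_zero]

theorem Fr_lin {x : ℝ} (h : 3 / 4 ≤ x) : Fr x = x - 1 / 2 := by
  unfold Fr
  rw [Real.smoothTransition.one_of_one_le (by linarith), mul_one]

theorem Fr_nonneg (x : ℝ) : 0 ≤ Fr x := by
  rcases le_total x (1 / 2) with h | h
  · rw [Fr_zero h]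
  · exact mul_nonneg (by linarith) (Real.smoothTransition.nonneg _)

theorem Fr_mono : Monotone Fr := by
  intro x y hxy
  rcases le_total x (1 / 2) with h | h
  · rw [Fr_zero h]; exact Fr_nonneg y
  · unfold Fr
    refine mul_le_mul (by linarith) ?_ (Real.smoothTransition.nonneg _) (by linarith)
    exact Real.smoothTransition.monotone (by linarith)

theorem Fr_le {x : ℝ} (h : 1 / 2 ≤ x) : Fr x ≤ x - 1 / 2 := by
  unfold Fr
  exact mul_le_of_le_one_right (by linarith) (Real.smoothTransition.le_one _)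

/-- smooth functions constant on both sides have bounded derivatives. -/
theorem const_bdd {f : ℝ → ℝ} (hf : ContDiff ℝ (⊤ : ℕ∞) f) {a b c1 c2 : ℝ}
    (h1 : ∀ x < a, f x = c1) (h2 : ∀ x, b < x → f x = c2) (k : ℕ) :
    ∃ C : ℝ, 0 ≤ C ∧ ∀ x, |iteratedDeriv k f x| ≤ C := by
  have hc : Continuous (iteratedDeriv k f) :=
    hf.continuous_iteratedDeriv k (by exact_mod_cast le_top)
  obtain ⟨C, hC⟩ := (isCompact_Icc (a := a) (b := b)).exists_bound_of_continuousOn hc.continuousOn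
  refine ⟨max (max C 0) (max |c1| |c2|), by positivity, fun x => ?_⟩
  have key : ∀ c : ℝ, f =ᶠ[𝓝 x] (fun _ => c) → |iteratedDeriv k f x| ≤ |c| := by
    intro c he
    rw [Filter.EventuallyEq.iteratedDeriv_eq k he, iteratedDeriv_const]
    split_ifs
    · exact le_rfl
    · simp
  rcases lt_or_ge x a with h | h
  · exact (key c1 ((eventually_lt_nhds h).mono fun y hy => h1 y hy)).trans
      ((le_max_left _ _).trans (le_max_right _ _))
  rcases lt_or_ge b x with h' | h'
  · exact (key c2 ((eventually_gt_nhds h').mono fun y hy => h2 y hy)).trans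
      ((le_max_right _ _).trans (le_max_right _ _))
  · have := hC x ⟨h, h'⟩
    rw [Real.norm_eq_abs] at this
    exact this.trans ((le_max_left _ _).trans (le_max_left _ _))

theorem Fr_bdd (k : ℕ) : ∃ C : ℝ, 0 ≤ C ∧ ∀ x, |iteratedDeriv (k + 1) Fr x| ≤ C := by
  have h : ContDiff ℝ (⊤ : ℕ∞) (deriv Fr) := (contDiff_infty_iff_deriv.1 Fr_smooth).2
  have h1 : ∀ x < (1 / 2 : ℝ), deriv Fr x = 0 := by
    intro x hx
    have : Fr =ᶠ[𝓝 x] (fun _ => 0) := (eventually_lt_nhds hx).mono fun y hy => Fr_zero hy.le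
    rw [this.deriv_eq]; simp
  have h2 : ∀ x, (3 / 4 : ℝ) < x → deriv Fr x = 1 := by
    intro x hx
    have : Fr =ᶠ[𝓝 x] (fun y => y - 1 / 2) :=
      (eventually_gt_nhds hx).mono fun y hy => Fr_lin hy.le
    rw [this.deriv_eq]
    simp
  obtain ⟨C, h0, hC⟩ := const_bdd h h1 h2 k
  refine ⟨C, h0, fun x => ?_⟩
  rw [iteratedDeriv_succ']
  exact hC x

/-- The truncated weight. -/
def Ps (R x : ℝ) : ℝ := Fr x - Fr (x - R)

theorem Ps_smooth (R : ℝ) : ContDiff ℝ (⊤ : ℕ∞) (Ps R) := by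
  unfold Ps
  exact Fr_smooth.sub (Fr_smooth.comp (by fun_prop))

theorem Ps_iter (R : ℝ) (k : ℕ) (x : ℝ) :
    iteratedDeriv k (Ps R) x = iteratedDeriv k Fr x - iteratedDeriv k Fr (x - R) := by
  have h1 : ContDiffAt ℝ k Fr x := (Fr_smooth.of_le (by exact_mod_cast le_top)).contDiffAt
  have h2 : ContDiffAt ℝ k (fun y => Fr (y - R)) x :=
    ((Fr_smooth.of_le (by exact_mod_cast le_top)).comp (by fun_prop)).contDiffAt
  have := iteratedDeriv_fun_sub h1 h2
  unfold Ps
  rw [this, iteratedDeriv_comp_sub_const]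

theorem Ps_nonneg {R : ℝ} (hR : 0 ≤ R) (x : ℝ) : 0 ≤ Ps R x :=
  sub_nonneg.2 (Fr_mono (by linarith))

theorem Ps_le_Fr (R x : ℝ) : Ps R x ≤ Fr x := sub_le_self _ (Fr_nonneg _)

theorem Ps_zero {R x : ℝ} (hR : 0 ≤ R) (h : x ≤ 1 / 2) : Ps R x = 0 := by
  unfold Ps
  rw [Fr_zero h, Fr_zero (by linarith), sub_zero]

theorem Ps_lin {R x : ℝ} (h : 3 / 4 ≤ x) (h' : x ≤ R) : Ps R x = x - 1 / 2 := by
  unfold Ps
  rw [Fr_lin h, Fr_zero (by linarith), sub_zero]

theorem Ps_le {R : ℝ} (hR : 0 ≤ R) (x : ℝ) : Ps R x ≤ R + 1 := by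
  rcases le_total x (R + 3 / 4) with h | h
  · refine (Ps_le_Fr R x).trans ((Fr_mono h).trans ?_)
    exact (Fr_le (by linarith)).trans (by linarith)
  · unfold Ps
    rw [Fr_lin (by linarith), Fr_lin (by linarith)]
    linarith

theorem Ps_bdd {R : ℝ} (hR : 0 ≤ R) (k : ℕ) : ∃ C : ℝ, ∀ x, |iteratedDeriv k (Ps R) x| ≤ C := by
  rcases k with _ | k
  · refine ⟨R + 1, fun x => ?_⟩
    rw [iteratedDeriv_zero, abs_of_nonneg (Ps_nonneg hR x)]
    exact Ps_le hR x
  · obtain ⟨C, _, hC⟩ := Fr_bdd k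
    refine ⟨C + C, fun x => ?_⟩
    rw [Ps_iter]
    exact (abs_sub _ _).trans (add_le_add (hC _) (hC _))

theorem BInf_const {f : ℝ → ℝ} (hf : ContDiff ℝ (⊤ : ℕ∞) f)
    (hb : ∀ k : ℕ, ∃ C : ℝ, ∀ x, |iteratedDeriv k f x| ≤ C) (t1 t2 : ℝ) :
    BInf (fun _ => f) (fun _ _ => 0) t1 t2 := by
  refine ⟨fun _ _ => hf, fun k => ?_, fun k => (hb k).imp fun C hC _ _ x => hC x,
    fun t _ x => hasDerivWithinAt_const _ _ _, continuousOn_const, ⟨0, fun _ _ _ => by simp⟩⟩
  have hc : Continuous (iteratedDeriv k f) :=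
    hf.continuous_iteratedDeriv k (by exact_mod_cast le_top)
  exact (hc.comp continuous_snd).continuousOn

theorem BInf_zero (t1 t2 : ℝ) : BInf (fun _ _ => 0) (fun _ _ => 0) t1 t2 :=
  BInf_const (f := fun _ => 0) contDiff_const (fun k => ⟨0, fun x => by simp⟩) t1 t2

theorem HInf_zero (t1 t2 : ℝ) : HInf (fun _ _ => 0) t1 t2 := by
  refine ⟨fun _ _ => contDiff_const, fun k => ?_, fun k t _ => ?_, fun k => ⟨0, fun t _ => ?_⟩⟩
  · simp only [iteratedDeriv_fun_const_zero]; exact continuousOn_const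
  · have : iteratedDeriv k (fun _ : ℝ => (0 : ℝ)) = fun _ => 0 := by
      funext x; simp
    rw [this]
    exact MemLp.zero'
  · simp

theorem HTD_zero (t1 t2 : ℝ) : HasTimeDeriv (fun _ _ => 0) (fun _ _ => 0) t1 t2 := by
  intro k t _ x
  simp only [iteratedDeriv_fun_const_zero]
  exact hasDerivWithinAt_const _ _ _

/-- sup bound on the right side. -/
theorem sup_right {f : ℝ → ℝ} (hf : ContDiff ℝ 1 f) (h0 : MemLp f 2) (h1 : MemLp (deriv f) 2)
    {θ : ℝ} (hθ : 0 < θ) {x : ℝ} (hx : 1 / 2 ≤ x) :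
    f x ^ 2 ≤ θ * (∫ y in Ici (1 / 2 : ℝ), f y ^ 2)
      + (∫ y in Ici (1 / 2 : ℝ), deriv f y ^ 2) / θ := by
  have i0 : Integrable (fun y => f y ^ 2) := h0.integrable_sq
  have i1 : Integrable (fun y => deriv f y ^ 2) := h1.integrable_sq
  have hd : ∀ y, HasDerivAt (fun z => f z ^ 2) (2 * f y * deriv f y) y := by
    intro y
    have := ((hf.differentiable (by norm_num)) y).hasDerivAt.pow 2
    refine this.congr_deriv ?_
    norm_num
  have i2 : Integrable (fun y => 2 * f y * deriv f y) := by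
    have : Integrable (fun y => f y * deriv f y) := h0.integrable_mul h1
    refine (this.const_mul 2).congr (Eventually.of_forall fun y => ?_)
    simp only; ring
  have ht : Tendsto (fun y => f y ^ 2) atTop (𝓝 0) :=
    tendsto_zero_of_hasDerivAt_of_integrableOn_Ioi (a := 0) (fun y _ => hd y)
      i2.integrableOn i0.integrableOn
  have e := integral_Ioi_of_hasDerivAt_of_tendsto' (a := x) (fun y _ => hd y) i2.integrableOn ht
  have i3 : Integrable (fun y => θ * f y ^ 2 + deriv f y ^ 2 / θ) :=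
    (i0.const_mul θ).add (i1.div_const θ)
  have h3 : f x ^ 2 = ∫ y in Ioi x, -(2 * f y * deriv f y) := by
    rw [integral_neg, e]; ring
  rw [h3]
  calc (∫ y in Ioi x, -(2 * f y * deriv f y)) ≤ ∫ y in Ioi x, (θ * f y ^ 2 + deriv f y ^ 2 / θ) := by
        refine setIntegral_mono i2.neg.integrableOn i3.integrableOn fun y => ?_
        have h4 : θ * f y ^ 2 + deriv f y ^ 2 / θ + 2 * f y * deriv f y
            = (θ * f y + deriv f y) ^ 2 / θ := by
          field_simp
          ring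
        have h5 : 0 ≤ (θ * f y + deriv f y) ^ 2 / θ := by positivity
        simp only
        linarith
    _ ≤ ∫ y in Ici (1 / 2 : ℝ), (θ * f y ^ 2 + deriv f y ^ 2 / θ) := by
        refine setIntegral_mono_set i3.integrableOn ?_ ?_
        · refine Eventually.of_forall fun y => ?_
          simp only [Pi.zero_apply]
          positivity
        · refine LE.le.eventuallyLE fun y hy => ?_
          exact hx.trans (le_of_lt hy)
    _ = _ := by
        rw [integral_add (i0.const_mul θ).integrableOn (i1.div_const θ).integrableOn,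
          integral_const_mul, integral_div]

theorem Ps_iter_zero {R : ℝ} (hR : 0 ≤ R) {x : ℝ} (hx : x < 1 / 2) (k : ℕ) :
    iteratedDeriv k (Ps R) x = 0 := by
  have : Ps R =ᶠ[𝓝 x] (fun _ => 0) :=
    (eventually_lt_nhds hx).mono fun y hy => Ps_zero hR (le_of_lt hy)
  rw [Filter.EventuallyEq.iteratedDeriv_eq k this]
  simp

/-- The integrand with `q = 0`, `U = 0` along a solution. -/
theorem tInt_eq {u : ℝ → ℝ → ℝ} {R s : ℝ} (hs : ContDiff ℝ (⊤ : ℕ∞) (u s)) (x : ℝ) :
    tInt (fun _ => Ps R) (fun _ _ => 0) (fun _ _ => 0) (fun _ _ => 0) (fun _ _ => 0) (fun _ _ => 0)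
      u (fun t x => -deriv (flux (u t)) x) s x =
    -3 * deriv (Ps R) x * deriv (u s) x ^ 2 + iteratedDeriv 3 (Ps R) x * u s x ^ 2
      + 5 / 3 * deriv (Ps R) x * u s x ^ 6 := by
  have hS : srcS (fun _ _ => 0) u (fun t x => -deriv (flux (u t)) x) s = fun _ => 0 := by
    funext y
    unfold srcS
    have e1 : (fun x' => nG ((fun _ _ => (0 : ℝ)) s x') (u s x')) = fun x' => u s x' ^ 5 := by
      funext z; simp [nG]
    have d2 : Differentiable ℝ (iteratedDeriv 2 (u s)) := by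
      have hc : ContDiff ℝ 1 (iteratedDeriv 2 (u s)) := by
        rw [iteratedDeriv_eq_iterate]
        refine ContDiff.iterate_deriv' 1 2 (hs.of_le ?_)
        exact WithTop.coe_le_coe.2 (le_top : ((1 + 2 : ℕ) : ℕ∞) ≤ ⊤)
      exact hc.differentiable (by norm_num)
    have d5 : Differentiable ℝ (fun z => u s z ^ 5) :=
      (hs.differentiable (by simp)).pow 5
    have e2 : deriv (flux (u s)) y = iteratedDeriv 3 (u s) y + deriv (fun z => u s z ^ 5) y := by
      have : flux (u s) = fun z => iteratedDeriv 2 (u s) z + u s z ^ 5 := by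
        funext z; rfl
      rw [this, deriv_fun_add (d2 y) (d5 y), iteratedDeriv_succ (n := 2)]
    rw [e1]
    simp only
    rw [e2]
    ring
  unfold tInt
  rw [hS]
  simp [rhsD, nG, nG2, nGG]
  ring

/-- The bound of the integrand. -/
theorem tInt_le {C0 : ℝ} (hC0 : 0 ≤ C0) (hF1 : ∀ x, |iteratedDeriv 1 Fr x| ≤ C0)
    (hF3 : ∀ x, |iteratedDeriv 3 Fr x| ≤ C0) {f : ℝ → ℝ} (hf : ContDiff ℝ 1 f) (h0 : MemLp f 2)
    (h1 : MemLp (deriv f) 2) {R C1 θ : ℝ} (hR : 0 ≤ R) (hC1 : 0 < C1) (hθ : 1 ≤ θ)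
    (hb0 : (∫ y in Ici (1 / 2 : ℝ), f y ^ 2) ≤ C1)
    (hb1 : (∫ y in Ici (1 / 2 : ℝ), deriv f y ^ 2) ≤ C1 * θ ^ 2)
    (hi : Integrable (fun x => -3 * deriv (Ps R) x * deriv f x ^ 2
      + iteratedDeriv 3 (Ps R) x * f x ^ 2 + 5 / 3 * deriv (Ps R) x * f x ^ 6)) :
    (∫ x, (-3 * deriv (Ps R) x * deriv f x ^ 2
      + iteratedDeriv 3 (Ps R) x * f x ^ 2 + 5 / 3 * deriv (Ps R) x * f x ^ 6)) ≤
      (8 * C0 * C1 + 16 * C0 * C1 ^ 3) * θ ^ 2 := by
  have i0 : Integrable (fun y => f y ^ 2) := h0.integrable_sq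
  have i1 : Integrable (fun y => deriv f y ^ 2) := h1.integrable_sq
  have hsup : ∀ x, 1 / 2 ≤ x → f x ^ 2 ≤ 2 * C1 * θ := by
    intro x hx
    have hθ0 : 0 < θ := by linarith
    have := sup_right hf h0 h1 hθ0 hx
    have h2 : θ * (∫ y in Ici (1 / 2 : ℝ), f y ^ 2) ≤ θ * C1 :=
      mul_le_mul_of_nonneg_left hb0 hθ0.le
    have h3 : (∫ y in Ici (1 / 2 : ℝ), deriv f y ^ 2) / θ ≤ C1 * θ := by
      rw [div_le_iff₀ hθ0]
      calc _ ≤ C1 * θ ^ 2 := hb1
        _ = C1 * θ * θ := by ring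
    linarith
  have g1 : ∀ x, |deriv (Ps R) x| ≤ 2 * C0 := by
    intro x
    rw [← iteratedDeriv_one, Ps_iter]
    exact (abs_sub _ _).trans (by linarith [hF1 x, hF1 (x - R)])
  have g3 : ∀ x, |iteratedDeriv 3 (Ps R) x| ≤ 2 * C0 := by
    intro x
    rw [Ps_iter]
    exact (abs_sub _ _).trans (by linarith [hF3 x, hF3 (x - R)])
  have i2 : Integrable (fun x => 6 * C0 * deriv f x ^ 2
      + (2 * C0 + 16 * C0 * C1 ^ 2 * θ ^ 2) * f x ^ 2) :=
    (i1.const_mul _).add (i0.const_mul _)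
  calc _ ≤ ∫ x, (Ici (1 / 2 : ℝ)).indicator (fun x => 6 * C0 * deriv f x ^ 2
      + (2 * C0 + 16 * C0 * C1 ^ 2 * θ ^ 2) * f x ^ 2) x := by
        refine integral_mono hi (i2.indicator measurableSet_Ici) fun x => ?_
        simp only
        by_cases hx : x ∈ Ici (1 / 2 : ℝ)
        · rw [Set.indicator_of_mem hx]
          have a1 : -3 * deriv (Ps R) x * deriv f x ^ 2 ≤ 6 * C0 * deriv f x ^ 2 := by
            refine mul_le_mul_of_nonneg_right ?_ (sq_nonneg _)
            have := (abs_le.1 (g1 x)).1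
            linarith
          have a2 : iteratedDeriv 3 (Ps R) x * f x ^ 2 ≤ 2 * C0 * f x ^ 2 :=
            mul_le_mul_of_nonneg_right ((le_abs_self _).trans (g3 x)) (sq_nonneg _)
          have a3 : 5 / 3 * deriv (Ps R) x * f x ^ 6 ≤ 16 * C0 * C1 ^ 2 * θ ^ 2 * f x ^ 2 := by
            have b1 : 5 / 3 * deriv (Ps R) x * f x ^ 6 ≤ 4 * C0 * f x ^ 6 := by
              refine mul_le_mul_of_nonneg_right ?_ (by positivity)
              have := (abs_le.1 (g1 x)).2
              linarith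
            have b2 : f x ^ 6 ≤ 4 * C1 ^ 2 * θ ^ 2 * f x ^ 2 := by
              have h5 := hsup x hx
              have h6 : (f x ^ 2) ^ 2 ≤ (2 * C1 * θ) ^ 2 :=
                pow_le_pow_left₀ (sq_nonneg _) h5 2
              calc f x ^ 6 = (f x ^ 2) ^ 2 * f x ^ 2 := by ring
                _ ≤ (2 * C1 * θ) ^ 2 * f x ^ 2 :=
                  mul_le_mul_of_nonneg_right h6 (sq_nonneg _)
                _ = _ := by ring
            calc _ ≤ 4 * C0 * f x ^ 6 := b1
              _ ≤ 4 * C0 * (4 * C1 ^ 2 * θ ^ 2 * f x ^ 2) :=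
                mul_le_mul_of_nonneg_left b2 (by linarith)
              _ = _ := by ring
          linarith
        · rw [Set.indicator_of_notMem hx]
          have hx' : x < 1 / 2 := by simpa using hx
          have z1 := Ps_iter_zero hR hx' 1
          have z3 := Ps_iter_zero hR hx' 3
          rw [iteratedDeriv_one] at z1
          rw [z1, z3]
          simp
    _ = 6 * C0 * (∫ y in Ici (1 / 2 : ℝ), deriv f y ^ 2)
      + (2 * C0 + 16 * C0 * C1 ^ 2 * θ ^ 2) * (∫ y in Ici (1 / 2 : ℝ), f y ^ 2) := by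
        rw [integral_indicator measurableSet_Ici,
          integral_add (i1.const_mul _).integrableOn (i0.const_mul _).integrableOn,
          integral_const_mul, integral_const_mul]
    _ ≤ 6 * C0 * (C1 * θ ^ 2) + (2 * C0 + 16 * C0 * C1 ^ 2 * θ ^ 2) * C1 := by
        refine add_le_add (mul_le_mul_of_nonneg_left hb1 (by linarith))
          (mul_le_mul_of_nonneg_left hb0 (by positivity))
    _ ≤ _ := by
        have : 1 ≤ θ ^ 2 := one_le_pow₀ hθ
        have h7 : 2 * C0 * C1 * 1 ≤ 2 * C0 * C1 * θ ^ 2 :=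
          mul_le_mul_of_nonneg_left this (by positivity)
        nlinarith

/-- The truncated inequality. -/
theorem trunc (h : S_TIME) {C0 : ℝ} (hC0 : 0 ≤ C0) (hF1 : ∀ x, |iteratedDeriv 1 Fr x| ≤ C0)
    (hF3 : ∀ x, |iteratedDeriv 3 Fr x| ≤ C0) {C1 β : ℝ} (hC1 : 0 < C1) (hβ : 0 ≤ β) (hβ1 : β < 1)
    {u : ℝ → ℝ → ℝ} {τ T : ℝ} (hτ : 0 < τ) (hT : T ≤ 1) (hu : SmoothSol u τ T)
    (hu0 : ∀ x, 1 < x → u τ x = 0)
    (hb : ∀ t ∈ Icc τ T, (∫ x in Ici (1 / 2 : ℝ), u t x ^ 2) ≤ C1 ∧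
      (∫ x in Ici (1 / 2 : ℝ), deriv (u t) x ^ 2) ≤ C1 * t ^ (-β)) {t : ℝ} (ht : t ∈ Icc τ T)
    {R : ℝ} (hR : 0 ≤ R) :
    Integrable (fun x => Ps R x * u t x ^ 2) ∧
    (∫ x, Ps R x * u t x ^ 2) ≤ C1 + (8 * C0 * C1 + 16 * C0 * C1 ^ 3) / (1 - β) := by
  set K := 8 * C0 * C1 + 16 * C0 * C1 ^ 3 with hK
  have hK0 : 0 ≤ K := by positivity
  have hut : HInf u τ t := Pool.Agent.Helper26.KV.hinf_mono hu.hinf le_rfl ht.2
  have hsub : Icc τ t ⊆ Icc τ T := Icc_subset_Icc le_rfl ht.2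
  obtain ⟨k1, k2, k3, k4⟩ := h τ t (fun _ => Ps R) (fun _ _ => 0) (fun _ _ => 0) (fun _ _ => 0)
    (fun _ _ => 0) (fun _ _ => 0) u (fun t x => -deriv (flux (u t)) x) ht.1
    (BInf_const (Ps_smooth R) (Ps_bdd hR) τ t) (BInf_zero τ t) (HInf_zero τ t) (HInf_zero τ t)
    (HTD_zero τ t) hut (Pool.Agent.Helper26.KV.HInf_wflux hut)
    (fun k s hs x => (hu.eqn k s (hsub hs) x).mono hsub)
  have hd : ∀ s, (fun x => dens (Ps R x) 0 0 (u s x) (deriv (u s) x))
      = fun x => Ps R x * u s x ^ 2 := by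
    intro s; funext x; simp [dens]
  have hf2 : ∀ s, fun2 (fun _ => Ps R) (fun _ _ => 0) (fun _ _ => 0) u s
      = ∫ x, Ps R x * u s x ^ 2 := by
    intro s
    unfold fun2
    rw [← hd s]
  have hk2 : ∀ s ∈ Icc τ t, Integrable (fun x => Ps R x * u s x ^ 2) := by
    intro s hs
    have := k2 s hs
    rwa [hd s] at this
  refine ⟨hk2 t (right_mem_Icc.2 ht.1), ?_⟩
  rw [hf2, hf2] at k4
  have e1 : (∫ x, Ps R x * u τ x ^ 2) ≤ C1 := by
    have i0 : Integrable (fun x => u τ x ^ 2) :=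
      (hu.hinf.memLp 0 τ (left_mem_Icc.2 (ht.1.trans ht.2))).integrable_sq.congr
        (Eventually.of_forall fun x => by simp)
    calc _ ≤ ∫ x, (Ici (1 / 2 : ℝ)).indicator (fun x => u τ x ^ 2) x := by
          refine integral_mono (hk2 τ (left_mem_Icc.2 ht.1)) (i0.indicator measurableSet_Ici)
            fun x => ?_
          simp only
          by_cases hx : x ∈ Ici (1 / 2 : ℝ)
          · rw [Set.indicator_of_mem hx]
            rcases lt_or_ge 1 x with h1 | h1
            · rw [hu0 x h1]; simp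
            · refine mul_le_of_le_one_left (sq_nonneg _) ?_
              exact (Ps_le_Fr R x).trans ((Fr_le hx).trans (by linarith))
          · rw [Set.indicator_of_notMem hx]
            have hx' : x < 1 / 2 := by simpa using hx
            rw [Ps_zero hR hx'.le, zero_mul]
      _ = ∫ x in Ici (1 / 2 : ℝ), u τ x ^ 2 := integral_indicator measurableSet_Ici
      _ ≤ C1 := (hb τ (left_mem_Icc.2 (ht.1.trans ht.2))).1
  have hne : -1 < -β := by linarith
  have hint : IntervalIntegrable (fun s : ℝ => K * s ^ (-β)) volume τ t :=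
    (intervalIntegral.intervalIntegrable_rpow' hne).const_mul K
  have e2 : (∫ s in τ..t, ∫ x, tInt (fun _ => Ps R) (fun _ _ => 0) (fun _ _ => 0) (fun _ _ => 0)
      (fun _ _ => 0) (fun _ _ => 0) u (fun t x => -deriv (flux (u t)) x) s x)
      ≤ ∫ s in τ..t, K * s ^ (-β) := by
    refine intervalIntegral.integral_mono_on ht.1 k3 hint fun s hs => ?_
    have hs' := hsub hs
    have hs0 : 0 < s := hτ.trans_le hs.1
    have hs1 : s ≤ 1 := hs'.2.trans hT
    have hsm := hu.hinf.smooth s hs'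
    have hθ : 1 ≤ s ^ (-β / 2) :=
      Real.one_le_rpow_of_pos_of_le_one_of_nonpos hs0 hs1 (by linarith)
    have hθ2 : (s ^ (-β / 2)) ^ 2 = s ^ (-β) := by
      rw [← Real.rpow_natCast, ← Real.rpow_mul hs0.le]
      congr 1
      push_cast
      ring
    have hi := k1 s hs
    have heq : tInt (fun _ => Ps R) (fun _ _ => 0) (fun _ _ => 0) (fun _ _ => 0)
      (fun _ _ => 0) (fun _ _ => 0) u (fun t x => -deriv (flux (u t)) x) s = fun x =>
        (-3 * deriv (Ps R) x * deriv (u s) x ^ 2 + iteratedDeriv 3 (Ps R) x * u s x ^ 2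
      + 5 / 3 * deriv (Ps R) x * u s x ^ 6) := funext fun x => tInt_eq hsm x
    rw [heq] at hi
    have m0 : MemLp (u s) 2 := by
      have := hu.hinf.memLp 0 s hs'
      rwa [iteratedDeriv_zero] at this
    have m1 : MemLp (deriv (u s)) 2 := by
      have := hu.hinf.memLp 1 s hs'
      rwa [iteratedDeriv_one] at this
    have := tInt_le hC0 hF1 hF3 (hsm.of_le (by exact_mod_cast le_top)) m0 m1 hR hC1 hθ (hb s hs').1
      (by rw [hθ2]; exact (hb s hs').2) hi
    rw [hθ2] at this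
    rw [heq]
    exact this
  have e3 : (∫ s in τ..t, K * s ^ (-β)) ≤ K / (1 - β) := by
    rw [intervalIntegral.integral_const_mul, integral_rpow (Or.inl hne), mul_div_assoc']
    have h1 : t ^ (-β + 1) ≤ 1 :=
      Real.rpow_le_one (hτ.le.trans ht.1) (ht.2.trans hT) (by linarith)
    have h2 : 0 ≤ τ ^ (-β + 1) := Real.rpow_nonneg hτ.le _
    have h3 : (0 : ℝ) < 1 - β := by linarith
    rw [show -β + 1 = 1 - β by ring] at *
    refine div_le_div_of_nonneg_right ?_ h3.le
    calc K * (t ^ (1 - β) - τ ^ (1 - β)) ≤ K * 1 :=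
          mul_le_mul_of_nonneg_left (by linarith) hK0
      _ = K := mul_one K
  linarith

theorem right (h : S_TIME) : S_RIGHT := by
  intro C1 β hC1 hβ hβ1
  obtain ⟨A, hA0, hA⟩ := Fr_bdd 0
  obtain ⟨B, hB0, hB⟩ := Fr_bdd 2
  have hF1 : ∀ x, |iteratedDeriv 1 Fr x| ≤ A + B := fun x => (hA x).trans (by linarith)
  have hF3 : ∀ x, |iteratedDeriv 3 Fr x| ≤ A + B := fun x => (hB x).trans (by linarith)
  set C0 := A + B with hC0d
  have hC0 : 0 ≤ C0 := by positivity
  set K' := C1 + (8 * C0 * C1 + 16 * C0 * C1 ^ 3) / (1 - β) with hK'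
  have hK0 : 0 < K' := by
    have : (0 : ℝ) < 1 - β := by linarith
    positivity
  refine ⟨2 * K', by positivity, ?_⟩
  intro u τ T hτ hτT hT hu hu0 hb t ht
  have hcu : Continuous (u t) := (hu.hinf.smooth t ht).continuous
  have hcx : Continuous (fun x => x * u t x ^ 2) := by fun_prop
  have key : ∀ R : ℝ, 1 ≤ R → (∫ x in (1 : ℝ)..R, ‖x * u t x ^ 2‖) ≤ 2 * K' := by
    intro R hR
    obtain ⟨i1, i2⟩ := trunc h hC0 hF1 hF3 hC1 hβ hβ1 hτ hT hu hu0 hb ht
      (show (0 : ℝ) ≤ R by linarith)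
    have i3 : Integrable (fun x => 2 * (Ps R x * u t x ^ 2)) := i1.const_mul 2
    rw [intervalIntegral.integral_of_le hR]
    calc (∫ x in Ioc 1 R, ‖x * u t x ^ 2‖) ≤ ∫ x in Ioc 1 R, 2 * (Ps R x * u t x ^ 2) := by
          refine setIntegral_mono_on ?_ i3.integrableOn measurableSet_Ioc fun x hx => ?_
          · exact (hcx.norm.integrableOn_Icc (a := 1) (b := R)).mono_set Ioc_subset_Icc_self
          · have hx1 : 1 < x := hx.1
            rw [Real.norm_of_nonneg (by positivity), Ps_lin (by linarith) hx.2, ← mul_assoc]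
            exact mul_le_mul_of_nonneg_right (by linarith) (sq_nonneg _)
      _ ≤ ∫ x, 2 * (Ps R x * u t x ^ 2) := by
          refine setIntegral_le_integral i3 (Eventually.of_forall fun x => ?_)
          simp only [Pi.zero_apply]
          have := Ps_nonneg (show (0 : ℝ) ≤ R by linarith) x
          positivity
      _ = 2 * ∫ x, Ps R x * u t x ^ 2 := integral_const_mul _ _
      _ ≤ 2 * K' := by linarith
  have hio : IntegrableOn (fun x => x * u t x ^ 2) (Ioi 1) := by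
    refine integrableOn_Ioi_of_intervalIntegral_norm_bounded (2 * K') 1
      (b := fun R : ℝ => R) (l := atTop) (fun R => ?_) tendsto_id ?_
    · exact (hcx.integrableOn_Icc (a := 1) (b := R)).mono_set Ioc_subset_Icc_self
    · filter_upwards [eventually_ge_atTop (1 : ℝ)] with R hR using key R hR
  refine ⟨(integrableOn_Ici_iff_integrableOn_Ioi (by simp)).2 hio, ?_⟩
  rw [integral_Ici_eq_integral_Ioi]
  have hlim := intervalIntegral_tendsto_integral_Ioi 1 hio (tendsto_id (α := ℝ))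
  refine le_of_tendsto hlim ?_
  filter_upwards [eventually_ge_atTop (1 : ℝ)] with R hR
  refine le_trans ?_ (key R hR)
  simp only [id]
  exact intervalIntegral.integral_mono_on hR (hcx.intervalIntegrable _ _)
    (hcx.norm.intervalIntegrable _ _) fun x _ => Real.le_norm_self _

end Pool.Agent.Helper7.KV
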